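import Pool.Agent.Helper1.TE.Goals

/-!
# PROJECT TE (MP_8b4d68_lc), packet CE: existence of a good seed
-/

set_option autoImplicit false

namespace Pool.Agent.Helper59.TE

open Pool.Agent.Helper1.TE
open Pool.Agent.Helper65.LinSpace (dig tab nrec ifz eq01 le01 lt01 capPow Ctx)
open Finset

theorem bitc_lt (b a p i : ℕ) : bitc b a p i < 2 := Nat.mod_lt _ (by norm_num)

/-- number of vectors of small weight -/
theorem count_bad (b n : ℕ) :
    ((univ : Finset (Fin n → Fin 2)).filter (fun x => 4 * ∑ i, (x i : ℕ) < b)).card * 16 ^ n ≤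
      2 ^ b * 17 ^ n := by
  set f : Fin 2 → ℕ := fun y => if y = 0 then 16 else 1 with hf
  have h1 : ∑ x : Fin n → Fin 2, ∏ i, f (x i) = 17 ^ n := by
    have h := Finset.prod_univ_sum (fun _ : Fin n => (univ : Finset (Fin 2))) (fun _ y => f y)
    rw [Fintype.piFinset_univ] at h
    rw [← h]
    have h2 : ∑ y : Fin 2, f y = 17 := by
      rw [Fin.sum_univ_two, hf]
      rfl
    rw [h2, Finset.prod_const, Finset.card_univ, Fintype.card_fin]
  have h2 : ∀ x : Fin n → Fin 2, (∏ i, f (x i)) * 16 ^ (∑ i, (x i : ℕ)) = 16 ^ n := by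
    intro x
    rw [← Finset.prod_pow_eq_pow_sum, ← Finset.prod_mul_distrib]
    have h3 : ∀ i ∈ (univ : Finset (Fin n)), f (x i) * 16 ^ ((x i : Fin 2) : ℕ) = 16 := by
      intro i _
      have h4 : ∀ y : Fin 2, f y * 16 ^ (y : ℕ) = 16 := by
        intro y
        fin_cases y <;> simp [hf]
      exact h4 _
    rw [Finset.prod_congr rfl h3, Finset.prod_const, Finset.card_univ, Fintype.card_fin]
  set B := (univ : Finset (Fin n → Fin 2)).filter (fun x => 4 * ∑ i, (x i : ℕ) < b) with hB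
  have h5 : ∀ x ∈ B, 16 ^ n ≤ 2 ^ b * ∏ i, f (x i) := by
    intro x hx
    rw [hB, Finset.mem_filter] at hx
    have h6 : 16 ^ (∑ i, (x i : ℕ)) ≤ 2 ^ b := by
      have : (16 : ℕ) = 2 ^ 4 := by norm_num
      rw [this, ← pow_mul]
      exact Nat.pow_le_pow_right (by norm_num) hx.2.le
    rw [← h2 x, mul_comm]
    exact Nat.mul_le_mul_right _ h6
  calc B.card * 16 ^ n = ∑ x ∈ B, 16 ^ n := by rw [Finset.sum_const, smul_eq_mul]
    _ ≤ ∑ x ∈ B, 2 ^ b * ∏ i, f (x i) := Finset.sum_le_sum h5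
    _ ≤ ∑ x : Fin n → Fin 2, 2 ^ b * ∏ i, f (x i) :=
        Finset.sum_le_sum_of_subset (Finset.filter_subset _ _)
    _ = 2 ^ b * 17 ^ n := by rw [← Finset.mul_sum, h1]

/-- multiplication by a nonzero polynomial is injective -/
theorem bitc_inj (b p : ℕ) (hp : 0 < p) (hpb : p < 2 ^ b) (a a' : ℕ) (ha : a < 2 ^ (3 * b))
    (ha' : a' < 2 ^ (3 * b)) (h : ∀ i < 4 * b, bitc b a p i = bitc b a' p i) : a = a' := by
  have hex : ∃ t, t < b ∧ dig 2 p t = 1 := by
    by_contra hcon
    push Not at hcon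
    have h0 : tab 2 b (dig 2 p) = tab 2 b (fun _ => 0) := by
      apply Pool.Agent.Helper65.LinSpace.tab_congr
      intro i hi
      have h1 := hcon i hi
      have h2 := Pool.Agent.Helper65.LinSpace.dig_lt (q := 2) (by norm_num) p i
      omega
    rw [Pool.Agent.Helper65.LinSpace.tab_dig p b hpb] at h0
    unfold tab at h0
    simp at h0
    omega
  set t₀ := Nat.find hex with ht₀
  have hspec := Nat.find_spec hex
  have hmin : ∀ t, t < t₀ → dig 2 p t = 0 := by
    intro t ht
    have h1 := Nat.find_min hex ht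
    push Not at h1
    have h2 := h1 (by omega)
    have h3 := Pool.Agent.Helper65.LinSpace.dig_lt (q := 2) (by norm_num) p t
    omega
  have key : ∀ j, j < 3 * b → dig 2 a j = dig 2 a' j := by
    intro j
    induction j using Nat.strong_induction_on with
    | _ j ih =>
      intro hj
      have hi : t₀ + j < 4 * b := by omega
      have h1 := h (t₀ + j) hi
      unfold bitc at h1
      have hmem : t₀ ∈ range b := Finset.mem_range.2 hspec.1
      rw [← Finset.add_sum_erase _ _ hmem, ← Finset.add_sum_erase _ _ hmem] at h1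
      have h2 : ∑ t ∈ (range b).erase t₀,
            dig 2 p t * (if t ≤ t₀ + j then dig 2 a (t₀ + j - t) else 0) =
          ∑ t ∈ (range b).erase t₀,
            dig 2 p t * (if t ≤ t₀ + j then dig 2 a' (t₀ + j - t) else 0) := by
        refine Finset.sum_congr rfl fun t ht => ?_
        rw [Finset.mem_erase] at ht
        rcases lt_or_gt_of_ne ht.1 with hlt | hgt
        · rw [hmin t hlt, zero_mul, zero_mul]
        · by_cases hle : t ≤ t₀ + j
          · rw [if_pos hle, if_pos hle, ih (t₀ + j - t) (by omega) (by omega)]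
          · rw [if_neg hle, if_neg hle]
      rw [h2, if_pos (by omega), if_pos (by omega), Nat.add_sub_cancel_left, hspec.2, one_mul,
        one_mul] at h1
      have h3 := Pool.Agent.Helper65.LinSpace.dig_lt (q := 2) (by norm_num) a j
      have h4 := Pool.Agent.Helper65.LinSpace.dig_lt (q := 2) (by norm_num) a' j
      omega
  rw [← Pool.Agent.Helper65.LinSpace.tab_dig a (3 * b) ha,
    ← Pool.Agent.Helper65.LinSpace.tab_dig a' (3 * b) ha']
  exact Pool.Agent.Helper65.LinSpace.tab_congr key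

/-- **CE**. -/
theorem gCE : GoalCE := by
  intro b hb
  by_contra hcon
  push Not at hcon
  set N := ((univ : Finset (Fin (4 * b) → Fin 2)).filter
    (fun x => 4 * ∑ i, (x i : ℕ) < b)).card with hN
  have hbad : ∀ a < 2 ^ (3 * b), ∃ p, 0 < p ∧ p < 2 ^ b ∧ 4 * wt b a p < b := by
    intro a ha
    by_contra h1
    push Not at h1
    exact hcon a ⟨ha, fun p h0 h2 => h1 p h0 h2⟩
  have hcard : ∀ p ∈ Ico 1 (2 ^ b),
      ((range (2 ^ (3 * b))).filter (fun a => 4 * wt b a p < b)).card ≤ N := by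
    intro p hp
    rw [Finset.mem_Ico] at hp
    rw [hN]
    refine Finset.card_le_card_of_injOn
      (fun a => fun i : Fin (4 * b) => (⟨bitc b a p i, bitc_lt b a p i⟩ : Fin 2)) ?_ ?_
    · intro a ha
      have ha' := Finset.mem_filter.1 (Finset.mem_coe.1 ha)
      rw [Finset.mem_coe, Finset.mem_filter]
      refine ⟨Finset.mem_univ _, ?_⟩
      have h2 := ha'.2
      unfold wt at h2
      rw [Finset.sum_range] at h2
      exact h2
    · intro a ha a' ha' heq
      have h1 := Finset.mem_filter.1 (Finset.mem_coe.1 ha)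
      have h2 := Finset.mem_filter.1 (Finset.mem_coe.1 ha')
      refine bitc_inj b p (by omega) hp.2 a a' (Finset.mem_range.1 h1.1)
        (Finset.mem_range.1 h2.1) fun i hi => ?_
      have h3 := congrFun heq (⟨i, hi⟩ : Fin (4 * b))
      exact congrArg Fin.val h3
  have hsub : range (2 ^ (3 * b)) ⊆ (Ico 1 (2 ^ b)).biUnion
      (fun p => (range (2 ^ (3 * b))).filter (fun a => 4 * wt b a p < b)) := by
    intro a ha
    obtain ⟨p, h0, h1, h2⟩ := hbad a (Finset.mem_range.1 ha)
    rw [Finset.mem_biUnion]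
    exact ⟨p, Finset.mem_Ico.2 ⟨h0, h1⟩, Finset.mem_filter.2 ⟨ha, h2⟩⟩
  have h1 : 2 ^ (3 * b) ≤ (2 ^ b - 1) * N := by
    calc 2 ^ (3 * b) = (range (2 ^ (3 * b))).card := (Finset.card_range _).symm
      _ ≤ _ := Finset.card_le_card hsub
      _ ≤ _ := Finset.card_biUnion_le_card_mul _ _ N hcard
      _ = (2 ^ b - 1) * N := by rw [Nat.card_Ico]
  have h2 : N * 16 ^ (4 * b) ≤ 2 ^ b * 17 ^ (4 * b) := count_bad b (4 * b)
  have h3 : 17 ^ (4 * b) ≤ 2 ^ b * 16 ^ (4 * b) := by
    rw [pow_mul, pow_mul, ← mul_pow]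
    exact Nat.pow_le_pow_left (by norm_num) b
  have h4 : 0 < 2 ^ b := by positivity
  have h5 : 0 < 2 ^ b * 17 ^ (4 * b) := by positivity
  have h6 : 2 ^ (3 * b) * 16 ^ (4 * b) < 2 ^ (3 * b) * 16 ^ (4 * b) := by
    calc 2 ^ (3 * b) * 16 ^ (4 * b) ≤ (2 ^ b - 1) * N * 16 ^ (4 * b) :=
          Nat.mul_le_mul_right _ h1
      _ = (2 ^ b - 1) * (N * 16 ^ (4 * b)) := by ring
      _ ≤ (2 ^ b - 1) * (2 ^ b * 17 ^ (4 * b)) := Nat.mul_le_mul_left _ h2
      _ < 2 ^ b * (2 ^ b * 17 ^ (4 * b)) := Nat.mul_lt_mul_of_pos_right (by omega) h5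
      _ ≤ 2 ^ b * (2 ^ b * (2 ^ b * 16 ^ (4 * b))) :=
          Nat.mul_le_mul_left _ (Nat.mul_le_mul_left _ h3)
      _ = 2 ^ (3 * b) * 16 ^ (4 * b) := by
          have : 2 ^ (3 * b) = 2 ^ b * 2 ^ b * 2 ^ b := by
            rw [← pow_add, ← pow_add]
            congr 1
            ring
          rw [this]
          ring
  exact lt_irrefl _ h6

end Pool.Agent.Helper59.TE
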