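import Pool.Agent.Helper1.TE.Goals2

/-!
# PROJECT TE (MP_8b4d68_lc), packet FUN: unambiguity
-/

set_option autoImplicit false

namespace Pool.Agent.Helper59.TE

open Pool.Agent.Helper1.TE
open Pool.Agent.Helper65.LinSpace (dig tab nrec ifz eq01 le01 lt01 capPow Ctx)
open Finset

theorem word_lt (w : List Bool) (i b : ℕ) : word w i b < 2 ^ b := by
  induction b with
  | zero => simp [word]
  | succ b ih =>
    have h1 : (w.getD (i + b) false).toNat ≤ 1 := by
      cases w.getD (i + b) false <;> simp
    rw [word, pow_succ]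
    omega

theorem inv_of_reach (hStep : InvStep) (ok : ℕ → ℕ → ℕ) (tst : ℕ → ℕ) (mal : ℕ) (w : List Bool)
    (x y : Sta) (hx : Inv ok tst mal w x)
    (h : Relation.ReflTransGen (fun x x' => ∃ γ < 2, x' = (machM ok tst mal).nx w x γ) x y) :
    Inv ok tst mal w y := by
  induction h with
  | refl => exact hx
  | tail _ h2 ih =>
    obtain ⟨γ, hγ, rfl⟩ := h2
    exact hStep ok tst mal w _ γ hγ ih

theorem inv_start (ok : ℕ → ℕ → ℕ) (tst : ℕ → ℕ) (mal : ℕ) (w : List Bool) :
    Inv ok tst mal w (machM ok tst mal).start :=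
  Inv.m0 0 (fun i hi => absurd hi (Nat.not_lt_zero i))

theorem eq_accS (ok : ℕ → ℕ → ℕ) (tst : ℕ → ℕ) (mal : ℕ) (w : List Bool) (x : Sta)
    (hx : Inv ok tst mal w x) (hacc : (machM ok tst mal).acc x ≠ 0) : x = accS := by
  have h8 : x.mo = 8 := by
    by_contra hne
    apply hacc
    change eq01 x.mo 8 = 0
    unfold eq01
    rw [if_neg hne]
  cases hx with
  | m8 _ => rfl
  | _ => exact absurd h8 (by simp [Sta.mo, hdr, rejS, mainS])

theorem rej_nx (ok : ℕ → ℕ → ℕ) (tst : ℕ → ℕ) (mal : ℕ) (w : List Bool) (γ : ℕ) :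
    (machM ok tst mal).nx w rejS γ = rejS := by
  change nextM ok tst mal rejS (codeB w[(machM ok tst mal).addr rejS]?) γ = rejS
  have h1 : nextN ok tst mal rejS (codeB w[(machM ok tst mal).addr rejS]?) γ = rejS := by
    unfold nextN
    simp [cif, Sta.mo, rejS, hdr]
  unfold nextM
  rw [h1]
  unfold cif
  split_ifs <;> rfl

theorem rej_reach (ok : ℕ → ℕ → ℕ) (tst : ℕ → ℕ) (mal : ℕ) (w : List Bool) (y : Sta)
    (h : Relation.ReflTransGen (fun x x' => ∃ γ < 2, x' = (machM ok tst mal).nx w x γ) rejS y) :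
    y = rejS := by
  induction h with
  | refl => rfl
  | tail _ h2 ih =>
    obtain ⟨γ, _, rfl⟩ := h2
    rw [ih]
    exact rej_nx ok tst mal w γ

theorem gFUN : GoalFUN := by
  intro hCHS hALG hUNQ hPB hCT hEB hEC hED hEE hFX hStep hOK ok tst mal w x y y' hR hacc R0 a0
    R1 a1
  have hxI : Inv ok tst mal w x :=
    inv_of_reach hStep ok tst mal w _ x (inv_start ok tst mal w) hR
  have hmo8 : x.mo ≠ 8 := by
    intro h8
    apply absurd hacc
    change eq01 x.mo 8 ≠ 0
    rw [h8]
    decide
  have I0 := hStep ok tst mal w x 0 (by norm_num) hxI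
  have I1 := hStep ok tst mal w x 1 (by norm_num) hxI
  have y0 : y = accS := eq_accS ok tst mal w y (inv_of_reach hStep ok tst mal w _ y I0 R0) a0
  have y1 : y' = accS := eq_accS ok tst mal w y' (inv_of_reach hStep ok tst mal w _ y' I1 R1) a1
  subst y0
  subst y1
  by_cases hq : gqM x = 0
  · -- the successor for `1` is rejecting
    have h1 : (machM ok tst mal).nx w x 1 = rejS := by
      change nextM ok tst mal x (codeB w[(machM ok tst mal).addr x]?) 1 = rejS
      unfold nextM
      rw [hq]
      have : eq01 x.mo 8 = 0 := by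
        unfold eq01
        rw [if_neg hmo8]
      rw [this]
      rfl
    rw [h1] at R1
    have h2 := rej_reach ok tst mal w _ R1
    have h3 := congrArg Sta.mo h2
    simp [accS, rejS, hdr, Sta.mo] at h3
  · -- a guess
    have hgq : gqM x = eq01 x.mo 7 * lt01 x.u (2 * x.b) * eq01 (kindN x.h x.τ) 1 := rfl
    have hmo : x.mo = 7 := by
      by_contra hne
      apply hq
      rw [hgq]
      unfold eq01
      rw [if_neg hne]
      simp
    have hu : x.u < 2 * x.b := by
      by_contra hne
      apply hq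
      rw [hgq]
      unfold lt01
      rw [if_neg hne]
      simp
    have hk : kindN x.h x.τ = 1 := by
      by_contra hne
      apply hq
      rw [hgq]
      unfold eq01
      rw [if_neg (c := kindN x.h x.τ = 1) hne]
      simp
    cases hxI with
    | m7 h b u τ g v C h1 hτ hu3 hg hv hC =>
      have hu' : u < 2 * b := hu
      have hk' : kindN h τ = 1 := hk
      set W := 2 ^ EP h b with hW
      have hgq1 : gqM (mainS h b u W τ g v C) = 1 := by
        change eq01 7 7 * lt01 u (2 * b) * eq01 (kindN h τ) 1 = 1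
        rw [hk']
        unfold lt01 eq01
        rw [if_pos hu']
        rfl
      have hN : ∀ yy γ, nextN ok tst mal (mainS h b u W τ g v C) yy γ =
          mainS h b (u + 1) W τ (2 * g + γ) v C := by
        intro yy γ
        have hne : 2 * b - u ≠ 0 := by omega
        unfold nextN
        simp [cif, Sta.mo, Sta.b, Sta.u, Sta.h, Sta.W, Sta.τ, Sta.g, Sta.v, Sta.C, mainS, hne]
      have n0 : (machM ok tst mal).nx w (mainS h b u W τ g v C) 0 =
          mainS h b (u + 1) W τ (2 * g + 0) v C := by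
        change nextM ok tst mal (mainS h b u W τ g v C) (codeB
          w[(machM ok tst mal).addr (mainS h b u W τ g v C)]?) 0 = _
        unfold nextM
        rw [hgq1, hN]
        rfl
      have n1 : (machM ok tst mal).nx w (mainS h b u W τ g v C) 1 =
          mainS h b (u + 1) W τ (2 * g + 1) v C := by
        change nextM ok tst mal (mainS h b u W τ g v C) (codeB
          w[(machM ok tst mal).addr (mainS h b u W τ g v C)]?) 1 = _
        unfold nextM
        rw [hgq1, hN]
        rfl
      rw [n0] at R0 I0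
      rw [n1] at R1 I1
      obtain ⟨g0, hg0, e0, E, F, s0, c0⟩ := hFX hPB hCT hEB hEC hED hEE hStep ok tst mal w h b
        (u + 1) τ (2 * g + 0) v C (by omega) I0 R0
      obtain ⟨g1, hg1, e1, E', F', s1, c1⟩ := hFX hPB hCT hEB hEC hED hEE hStep ok tst mal w h b
        (u + 1) τ (2 * g + 1) v C (by omega) I1 R1
      have hh : 1 ≤ h := h1.1.2.2.1
      have hb : 1 ≤ b := h1.1.2.2.2.1
      obtain ⟨-, -, -, p4, -, -, -, p8, -, -⟩ := hPB h b hh hb
      have hfour : (4 : ℕ) ^ b = 2 ^ b * 2 ^ b := by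
        rw [← mul_pow]
        norm_num
      have hdiv : ∀ t, t < 4 ^ b → t / 2 ^ b < 2 ^ b := by
        intro t ht
        rw [hfour] at ht
        exact Nat.div_lt_of_lt_mul ht
      have hmod : ∀ t, t % 2 ^ b < 2 ^ b := fun t => Nat.mod_lt _ (by positivity)
      have hV : ∀ k, (gadM h b W).V (toF C0 k) := by
        intro k
        have hz : toF C0 k = (0, 0) := by
          fin_cases k <;> rfl
        rw [hz]
        change 0 < (LP h b W + RP h b) ^ (mP h b + 2)
        exact Nat.pow_pos p4
      have hunq := hUNQ hCHS hALG (gadM h b W) (hOK h b hh hb) tst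
        (leafV h b (w.drop (h + b + 2))) (tabV h b (w.drop (h + b + 2)))
        (fun j => word_lt _ _ _) (fun j a b => word_lt _ _ _) h 1 0 0 (toF C0) (toF C) (toF C)
        E E' F F' τ (g0 / 2 ^ b) (g0 % 2 ^ b) (g1 / 2 ^ b) (g1 % 2 ^ b) hτ hV
        (hdiv g0 hg0) (hmod g0) (hdiv g1 hg1) (hmod g1) hC s0 c0 hC s1 c1
      have hisG : isG h τ := by
        have h2 := (hED (gadM h b W) tst (leafV h b (w.drop (h + b + 2)))
          (tabV h b (w.drop (h + b + 2))) h τ 0 0 W (toF C0) hτ p8).1
        exact (h2.2.2.2.2.2.2.2).1 hk'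
      obtain ⟨q1, q2⟩ := hunq.2.2 hisG
      have hgg : g0 = g1 := by
        rw [← Nat.div_add_mod g0 (2 ^ b), ← Nat.div_add_mod g1 (2 ^ b), q1, q2]
      rw [hgg, e1] at e0
      omega
    | _ => exact absurd hmo (by simp [Sta.mo, hdr, rejS, accS])

end Pool.Agent.Helper59.TE
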