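import Pool.Agent.Helper1.TE.Goals3

/-!
# PROJECT TE (MP_8b4d68_lc), packet LNX: the machine is a linear space machine
-/

set_option autoImplicit false

namespace Pool.Agent.Helper59.TE

open Pool.Agent.Helper1.TE
open Pool.Agent.Helper65.LinSpace (dig tab nrec ifz eq01 le01 lt01 capPow Ctx LS)
open Finset

section proj

variable {α : Type} [Ctx α] {f : α → Sta}

theorem ls_mo (hf : LS f) : LS (fun a => (f a).mo) := by unfold Sta.mo; fun_prop
theorem ls_h (hf : LS f) : LS (fun a => (f a).h) := by unfold Sta.h; fun_prop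
theorem ls_b (hf : LS f) : LS (fun a => (f a).b) := by unfold Sta.b; fun_prop
theorem ls_u (hf : LS f) : LS (fun a => (f a).u) := by unfold Sta.u; fun_prop
theorem ls_W (hf : LS f) : LS (fun a => (f a).W) := by unfold Sta.W; fun_prop
theorem ls_U (hf : LS f) : LS (fun a => (f a).U) := by unfold Sta.U; fun_prop
theorem ls_τ (hf : LS f) : LS (fun a => (f a).τ) := by unfold Sta.τ; fun_prop
theorem ls_g (hf : LS f) : LS (fun a => (f a).g) := by unfold Sta.g; fun_prop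
theorem ls_v (hf : LS f) : LS (fun a => (f a).v) := by unfold Sta.v; fun_prop
theorem ls_C (hf : LS f) : LS (fun a => (f a).C) := by unfold Sta.C; fun_prop

theorem ls_hdr {m h b u W U : α → ℕ} (h1 : LS m) (h2 : LS h) (h3 : LS b) (h4 : LS u) (h5 : LS W)
    (h6 : LS U) : LS (fun a => hdr (m a) (h a) (b a) (u a) (W a) (U a)) := by
  unfold hdr
  fun_prop

theorem ls_mainS {h b u W τ g v : α → ℕ} {C : α → C3} (h1 : LS h) (h2 : LS b) (h3 : LS u)
    (h4 : LS W) (h5 : LS τ) (h6 : LS g) (h7 : LS v) (h8 : LS C) :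
    LS (fun a => mainS (h a) (b a) (u a) (W a) (τ a) (g a) (v a) (C a)) := by
  unfold mainS
  fun_prop

theorem ls_lenM {h b W U : α → ℕ} (h1 : LS h) (h2 : LS b) (h3 : LS W) (h4 : LS U) :
    LS (fun a => lenM (h a) (b a) (W a) (U a)) := by
  unfold lenM
  fun_prop

theorem ls_blkM (hT : GoalLTI) {h b W τ g : α → ℕ} (h1 : LS h) (h2 : LS b) (h3 : LS W)
    (h4 : LS τ) (h5 : LS g) : LS (fun a => blkM (h a) (b a) (W a) (τ a) (g a)) := by
  obtain ⟨t1, t2, -, -, t5⟩ := hT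
  have e1 : LS (fun a => kindN (h a) (τ a)) := by
    have := t5.comp (h1.prodMk h4)
    exact this
  have e2 : LS (fun a => lvl (h a) (τ a)) := by
    have := t1.comp (h1.prodMk h4)
    exact this
  have e3 : LS (fun a => nodeN (h a) (τ a) (lvl (h a) (τ a)) (W a)) := by
    have := t2.comp (h1.prodMk (h4.prodMk (e2.prodMk h3)))
    exact this
  have e4 : LS (fun a => capPow 2 (h a) (W a)) := LS.capPow (LS.const 2) h1 h3
  have e5 : LS (fun a => capPow 4 (b a) (W a)) := LS.capPow (LS.const 4) h2 h3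
  unfold blkM
  exact LS.ifz e1 (e3.sub e4) ((e4.add ((e3.sub (LS.const 1)).mul e5)).add h5)

end proj

theorem gLNX : GoalLNX := by
  intro hCF hPA hTI hVE hBG ok tst mal hok htst
  obtain ⟨bC, bT⟩ := hBG hCF hPA hTI hVE
  have bT' := bT tst htst
  obtain ⟨-, -, -, hEP, -⟩ := hPA
  refine ⟨?_, ?_, ?_⟩
  · change LS addrM
    have i0 : LS (fun x : Sta => x) := LS.id
    have e1 := ls_mo i0
    have e2 := ls_h i0
    have e3 := ls_b i0
    have e4 := ls_u i0
    have e5 := ls_W i0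
    have e6 := ls_U i0
    have e7 := ls_τ i0
    have e8 := ls_g i0
    have e9 := ls_lenM e2 e3 e5 e6
    have e10 := ls_blkM hTI e2 e3 e5 e7 e8
    unfold addrM
    refine LS.ifz e1 e2 (LS.ifz (e1.sub (LS.const 1)) ?_ (LS.ifz (e1.sub (LS.const 2)) e5
      (LS.ifz (e1.sub (LS.const 3)) e6 (LS.ifz (e1.sub (LS.const 4)) e9
      (LS.ifz (e1.sub (LS.const 5)) (e9.sub (LS.const 1)) ?_)))))
    · exact (e2.succ).add e3
    · exact (((e2.add e3).add (LS.const 2)).add (e10.mul e3)).add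
        (e4.sub ((LS.const 2).mul e3))
  · change LS (fun p : Sta × ℕ × ℕ => nextM ok tst mal p.1 p.2.1 p.2.2)
    have i0 : LS (fun p : Sta × ℕ × ℕ => p.1) := LS.fst
    have iy : LS (fun p : Sta × ℕ × ℕ => p.2.1) := by fun_prop
    have ig : LS (fun p : Sta × ℕ × ℕ => p.2.2) := by fun_prop
    have e1 := ls_mo i0
    have e2 := ls_h i0
    have e3 := ls_b i0
    have e4 := ls_u i0
    have e5 := ls_W i0
    have e6 := ls_U i0
    have e7 := ls_τ i0
    have e8 := ls_g i0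
    have e9 := ls_v i0
    have e10 := ls_C i0
    have zero : LS (fun _ : Sta × ℕ × ℕ => (0 : ℕ)) := LS.const 0
    have one : LS (fun _ : Sta × ℕ × ℕ => (1 : ℕ)) := LS.const 1
    have two : LS (fun _ : Sta × ℕ × ℕ => (2 : ℕ)) := LS.const 2
    have three : LS (fun _ : Sta × ℕ × ℕ => (3 : ℕ)) := LS.const 3
    have rej : LS (fun _ : Sta × ℕ × ℕ => rejS) := LS.const rejS
    have acc : LS (fun _ : Sta × ℕ × ℕ => accS) := LS.const accS
    have ra : LS (fun _ : Sta × ℕ × ℕ => cif mal rejS accS) := LS.const _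
    have hgq : LS (fun p : Sta × ℕ × ℕ => gqM p.1) := by
      have k1 : LS (fun p : Sta × ℕ × ℕ => kindN p.1.h p.1.τ) := by
        have := hTI.2.2.2.2.comp (e2.prodMk e7)
        exact this
      unfold gqM
      exact ((LS.eq01 e1 (LS.const 7)).mul (LS.lt01 e4 (two.mul e3))).mul (LS.eq01 k1 one)
    -- mode 0
    have m0 : LS (fun p : Sta × ℕ × ℕ => cif p.2.1 (cif mal rejS accS)
        (cif (p.2.1 - 1) (hdr 1 p.1.h 0 0 0 0) (hdr 0 (p.1.h + 1) 0 0 0 0))) := by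
      refine hCF _ _ _ iy ra (hCF _ _ _ (iy.sub one) ?_ ?_)
      · exact ls_hdr one e2 zero zero zero zero
      · exact ls_hdr zero e2.succ zero zero zero zero
    -- mode 1
    have hok' : LS (fun p : Sta × ℕ × ℕ => ok p.1.h p.1.b) := by
      have := hok.comp (e2.prodMk e3)
      exact this
    have m1 : LS (fun p : Sta × ℕ × ℕ => cif p.2.1 (cif mal rejS accS)
        (cif (p.2.1 - 1) (cif (p.1.h * p.1.b * ok p.1.h p.1.b) (cif mal rejS accS)
          (hdr 2 p.1.h p.1.b 0 1 0)) (hdr 1 p.1.h (p.1.b + 1) 0 0 0))) := by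
      refine hCF _ _ _ iy ra (hCF _ _ _ (iy.sub one) (hCF _ _ _ ((e2.mul e3).mul hok') ra ?_) ?_)
      · exact ls_hdr two e2 e3 zero one zero
      · exact ls_hdr one e2 e3.succ zero zero zero
    -- mode 2
    have m2 : LS (fun p : Sta × ℕ × ℕ => cif p.2.1 (cif mal rejS accS)
        (cif (p.1.h - p.1.u) (hdr 3 p.1.h p.1.b 0 p.1.W 1)
          (hdr 2 p.1.h p.1.b (p.1.u + 1) (2 * p.1.W) 0))) := by
      refine hCF _ _ _ iy ra (hCF _ _ _ (e2.sub e4) ?_ ?_)
      · exact ls_hdr three e2 e3 zero e5 one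
      · exact ls_hdr two e2 e3 e4.succ (two.mul e5) zero
    -- mode 3
    have m3 : LS (fun p : Sta × ℕ × ℕ => cif p.2.1 (cif mal rejS accS)
        (cif (2 * p.1.b - p.1.u) (hdr 4 p.1.h p.1.b 0 p.1.W p.1.U)
          (hdr 3 p.1.h p.1.b (p.1.u + 1) p.1.W (2 * p.1.U)))) := by
      refine hCF _ _ _ iy ra (hCF _ _ _ ((two.mul e3).sub e4) ?_ ?_)
      · exact ls_hdr (LS.const 4) e2 e3 zero e5 e6
      · exact ls_hdr three e2 e3 e4.succ e5 (two.mul e6)
    -- mode 4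
    have m4 : LS (fun p : Sta × ℕ × ℕ => cif p.2.1 (hdr 5 p.1.h p.1.b 0 p.1.W p.1.U)
        (cif mal rejS accS)) := by
      refine hCF _ _ _ iy ?_ ra
      exact ls_hdr (LS.const 5) e2 e3 zero e5 e6
    -- mode 5
    have m5 : LS (fun p : Sta × ℕ × ℕ => cif p.2.1 (cif mal rejS accS)
        (hdr 6 p.1.h p.1.b 0 1 0)) := by
      refine hCF _ _ _ iy ra ?_
      exact ls_hdr (LS.const 6) e2 e3 zero one zero
    -- mode 6
    have hEP' : LS (fun p : Sta × ℕ × ℕ => EP p.1.h p.1.b) := by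
      have := hEP.comp (e2.prodMk e3)
      exact this
    have m6 : LS (fun p : Sta × ℕ × ℕ => cif (EP p.1.h p.1.b - p.1.u)
        (mainS p.1.h p.1.b 0 p.1.W 0 0 0 ((0, 0), (0, 0), (0, 0)))
        (hdr 6 p.1.h p.1.b (p.1.u + 1) (2 * p.1.W) 0)) := by
      refine hCF _ _ _ (hEP'.sub e4) ?_ ?_
      · exact ls_mainS e2 e3 zero e5 zero zero zero (LS.const _)
      · exact ls_hdr (LS.const 6) e2 e3 e4.succ (two.mul e5) zero
    -- mode 7
    have hT' : LS (fun p : Sta × ℕ × ℕ => bigT p.1.h p.1.b p.1.W tst p.1.τ p.1.v p.1.C) := by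
      have := bT'.comp ((e2.prodMk (e3.prodMk e5)).prodMk (e7.prodMk (e9.prodMk e10)))
      exact this
    have hC' : LS (fun p : Sta × ℕ × ℕ => bigC p.1.h p.1.b p.1.W p.1.τ p.1.g p.1.v p.1.C) := by
      have := bC.comp ((e2.prodMk (e3.prodMk e5)).prodMk (e7.prodMk (e8.prodMk (e9.prodMk e10))))
      exact this
    have hdv : LS (fun p : Sta × ℕ × ℕ => (p.1.τ + 1) / 5 ^ p.1.h) :=
      LS.divPow (LS.const 5) e7.succ e2
    have m7 : LS (fun p : Sta × ℕ × ℕ => cif (2 * p.1.b - p.1.u)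
      (cif (3 * p.1.b - p.1.u)
        (cif (bigT p.1.h p.1.b p.1.W tst p.1.τ p.1.v p.1.C) rejS
          (cif ((p.1.τ + 1) / 5 ^ p.1.h)
            (mainS p.1.h p.1.b 0 p.1.W (p.1.τ + 1) 0 0
              (bigC p.1.h p.1.b p.1.W p.1.τ p.1.g p.1.v p.1.C))
            accS))
        (mainS p.1.h p.1.b (p.1.u + 1) p.1.W p.1.τ p.1.g (2 * p.1.v + (p.2.1 - 1)) p.1.C))
      (mainS p.1.h p.1.b (p.1.u + 1) p.1.W p.1.τ (2 * p.1.g + p.2.2) p.1.v p.1.C)) := by
      refine hCF _ _ _ ((two.mul e3).sub e4) (hCF _ _ _ ((three.mul e3).sub e4)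
        (hCF _ _ _ hT' rej (hCF _ _ _ hdv ?_ acc)) ?_) ?_
      · exact ls_mainS e2 e3 zero e5 e7.succ zero zero hC'
      · exact ls_mainS e2 e3 e4.succ e5 e7 e8 ((two.mul e9).add (iy.sub one)) e10
      · exact ls_mainS e2 e3 e4.succ e5 e7 ((two.mul e8).add ig) e9 e10
    have hN : LS (fun p : Sta × ℕ × ℕ => nextN ok tst mal p.1 p.2.1 p.2.2) := by
      unfold nextN
      refine hCF _ _ _ e1 m0 (hCF _ _ _ (e1.sub one) m1 (hCF _ _ _ (e1.sub two) m2
        (hCF _ _ _ (e1.sub three) m3 (hCF _ _ _ (e1.sub (LS.const 4)) m4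
        (hCF _ _ _ (e1.sub (LS.const 5)) m5 (hCF _ _ _ (e1.sub (LS.const 6)) m6
        (hCF _ _ _ (e1.sub (LS.const 7)) m7 i0)))))))
    unfold nextM
    exact hCF _ _ _ (ig.mul (one.sub hgq)) hN
      (hCF _ _ _ (LS.eq01 e1 (LS.const 8)) rej i0)
  · change LS (fun x : Sta => eq01 x.mo 8)
    exact LS.eq01 (ls_mo LS.id) (LS.const 8)

end Pool.Agent.Helper59.TE
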